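import Pool.Agent.AEP.Main

/-!
# MP_08b539_co: no colouring with four colours is proper for a positive measure of exponents
-/

open MeasureTheory

namespace Pool.Agent.Results.MP_08b539_co.AlmostEveryExponent

/-- Let `P` be a Lebesgue measurable set of real numbers `p > 1` of positive measure. Every colouring
of the plane with four colours has, for some `p` in `P`, two points of the same colour at `l_p`
distance one; and there are a finite set `F ⊆ P` and a finite set `X` of points such that already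
`X` has, in every colouring with four colours, two points of the same colour at `l_p` distance one
for some `p` in `F`. -/
theorem result (P : Set ℝ) (hP : NullMeasurableSet P) (h1 : ∀ p ∈ P, 1 < p)
    (h0 : volume P ≠ 0) :
    (∀ κ : ℝ × ℝ → Fin 4, ∃ p ∈ P, ∃ x y : ℝ × ℝ, κ x = κ y ∧
      |x.1 - y.1| ^ p + |x.2 - y.2| ^ p = 1) ∧
    ∃ (F : Finset ℝ) (X : Finset (ℝ × ℝ)), (∀ p ∈ F, p ∈ P) ∧ ∀ κ : ℝ × ℝ → Fin 4,
      ∃ p ∈ F, ∃ x ∈ X, ∃ y ∈ X, κ x = κ y ∧ |x.1 - y.1| ^ p + |x.2 - y.2| ^ p = 1 := by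
  have hm := Pool.Agent.AEP.main hP h1 h0
  refine ⟨hm, ?_⟩
  obtain ⟨F, X, hF, h⟩ := Pool.Agent.AEP.finite_of hm
  exact ⟨F, X, fun p hp => hF hp, h⟩

end Pool.Agent.Results.MP_08b539_co.AlmostEveryExponent
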