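import Pool.Agent.H99N.Main

/-!
# Lebesgue measurable colourings of normed planes close to the Euclidean plane need at least
five colours
-/

namespace Pool.Agent.Results.MP_08b539_co.NearEuclid

/-- There are `ε, R > 0` such that for every (semi)norm `N` on the plane which is `ε`-close to the
Euclidean norm, and for the `l_p` norm for every real `p` with `|p - 2| < ε`, every colouring of the
plane with four colours and Lebesgue measurable classes has two points of the same colour in the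
ball of radius `R` (sup norm) whose distance is exactly one. -/
theorem result :
    ∃ ε R : ℝ, 0 < ε ∧ 0 < R ∧
      (∀ N : Seminorm ℝ (ℝ × ℝ),
        (∀ x : ℝ × ℝ, |N x - √(x.1 ^ 2 + x.2 ^ 2)| ≤ ε * √(x.1 ^ 2 + x.2 ^ 2)) →
        ∀ κ : ℝ × ℝ → Fin 4,
          (∀ i, MeasureTheory.NullMeasurableSet (κ ⁻¹' {i}) MeasureTheory.volume) →
            ∃ x y : ℝ × ℝ, ‖x‖ ≤ R ∧ ‖y‖ ≤ R ∧ κ x = κ y ∧ N (x - y) = 1) ∧
      ∀ p : ℝ, |p - 2| < ε →
        ∀ κ : ℝ × ℝ → Fin 4,
          (∀ i, MeasureTheory.NullMeasurableSet (κ ⁻¹' {i}) MeasureTheory.volume) →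
            ∃ x y : ℝ × ℝ, ‖x‖ ≤ R ∧ ‖y‖ ≤ R ∧ κ x = κ y ∧
              |x.1 - y.1| ^ p + |x.2 - y.2| ^ p = 1 :=
  Pool.Agent.H99N.main_lp

end Pool.Agent.Results.MP_08b539_co.NearEuclid
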