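import Pool.Agent.DNB.Fin

/-!
# MP_08b539_co: strictly convex norms near every `l_p` norm whose plane needs five colours
-/

namespace Pool.Agent.Results.MP_08b539_co.NormsNearLp

/-- For every real `p > 1` and every `ε > 0` there is a strictly convex norm `N` on the plane,
invariant under the exchange of the coordinates and under changes of sign, which differs from the
`l_p` norm by at most `ε` times the `l_p` norm, and a finite set `X` of rational points which has, in
every colouring with four colours, two points of the same colour at `N`-distance one. -/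
theorem result (p : ℝ) (hp : 1 < p) (ε : ℝ) (hε : 0 < ε) :
    ∃ N : Seminorm ℝ (ℝ × ℝ), (∀ x, N x = 0 → x = 0) ∧
      (∀ x y, N x = 1 → N y = 1 → x ≠ y → N (x + y) < 2) ∧
      (∀ a b : ℝ, N (b, a) = N (a, b) ∧ N (-a, b) = N (a, b) ∧ N (a, -b) = N (a, b)) ∧
      (∀ a b : ℝ, |N (a, b) - (|a| ^ p + |b| ^ p) ^ (1 / p)| ≤
        ε * (|a| ^ p + |b| ^ p) ^ (1 / p)) ∧
      ∃ X : Finset (ℚ × ℚ), ∀ κ : ℚ × ℚ → Fin 4, ∃ x ∈ X, ∃ y ∈ X, κ x = κ y ∧
        N ((x.1 : ℝ) - y.1, (x.2 : ℝ) - y.2) = 1 :=
  Pool.Agent.DNB.final hp hε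

end Pool.Agent.Results.MP_08b539_co.NormsNearLp
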