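import Pool.Agent.TNM.Main

/-!
# Proper 4-colourings of smooth strictly convex normed planes are totally non-measurable
-/

namespace Pool.Agent.Results.MP_08b539_co.TotallyNonMeasurable

/-- Let `N` be a norm on the plane which is continuously differentiable away from the origin and
strictly convex, for instance the `l_p` norm for a real `p > 1`. Let `κ` be a colouring of the plane
with four colours and let `S` be a nonempty set of colours, not the set of all colours, such that
the union of the classes of the colours in `S` is Lebesgue measurable. Then there are two points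
of the same colour at `N`-distance exactly one. -/
theorem result :
    (∀ N : Seminorm ℝ (ℝ × ℝ), ContDiffOn ℝ 1 N {0}ᶜ → (∀ x, N x = 0 → x = 0) →
      (∀ x y, N x = 1 → N y = 1 → x ≠ y → N (x + y) < 2) →
      ∀ (κ : ℝ × ℝ → Fin 4) (S : Set (Fin 4)), S.Nonempty → Sᶜ.Nonempty →
        MeasureTheory.NullMeasurableSet (κ ⁻¹' S) MeasureTheory.volume →
          ∃ x y : ℝ × ℝ, κ x = κ y ∧ N (x - y) = 1) ∧
      ∀ p : ℝ, 1 < p →
        ∀ (κ : ℝ × ℝ → Fin 4) (S : Set (Fin 4)), S.Nonempty → Sᶜ.Nonempty →
          MeasureTheory.NullMeasurableSet (κ ⁻¹' S) MeasureTheory.volume →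
            ∃ x y : ℝ × ℝ, κ x = κ y ∧ |x.1 - y.1| ^ p + |x.2 - y.2| ^ p = 1 :=
  ⟨fun _ h1 h2 h3 κ _ hS hS' hκ => Pool.Agent.TNM.main ⟨h1, h2, h3⟩ κ hS hS' hκ,
    fun _ hp κ _ hS hS' hκ => Pool.Agent.TNM.main_lp hp κ hS hS' hκ⟩

end Pool.Agent.Results.MP_08b539_co.TotallyNonMeasurable
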